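import Pool.Agent.P8H32.CT.Main

/-!
# The Cauchy transform of a generic cubic oval is transcendental

For all real cubics outside a proper real-algebraic subset of the space of coefficient vectors,
the exterior Cauchy transform of a domain enclosed by a compact oval is not algebraic.
-/

set_option autoImplicit false

namespace Pool.Agent.Results.MP_076080_ag.GenericCubicOval

open MeasureTheory

/-- The value at the point `ζ = x + i y` of the real cubic polynomial `P(x, y)` with coefficient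
vector `a` in `ℝ ^ 10`; the monomials are `x³, x²y, xy², y³, x², xy, y², x, y, 1` in this order. -/
noncomputable def cubic (a : Fin 10 → ℝ) (ζ : ℂ) : ℝ :=
  a 0 * ζ.re ^ 3 + a 1 * ζ.re ^ 2 * ζ.im + a 2 * ζ.re * ζ.im ^ 2 + a 3 * ζ.im ^ 3 +
    a 4 * ζ.re ^ 2 + a 5 * ζ.re * ζ.im + a 6 * ζ.im ^ 2 + a 7 * ζ.re + a 8 * ζ.im + a 9

/-- `Γ` is a compact oval of the cubic with coefficient vector `a`: a compact connected component
of its real zero set. -/
def IsCompactOval (a : Fin 10 → ℝ) (Γ : Set ℂ) : Prop :=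
  IsCompact Γ ∧ ∃ ζ ∈ {ζ : ℂ | cubic a ζ = 0},
    Γ = connectedComponentIn {ζ : ℂ | cubic a ζ = 0} ζ

/-- `Ω` is enclosed by `Γ`: it is a bounded connected component of the complement of `Γ`. -/
def IsEnclosedBy (Ω Γ : Set ℂ) : Prop :=
  Bornology.IsBounded Ω ∧ ∃ ζ ∈ Γᶜ, Ω = connectedComponentIn Γᶜ ζ

/-- The exterior Cauchy transform `(1 / π) ∫_Ω dA(ζ) / (z - ζ)`. -/
noncomputable def cauchyTransform (Ω : Set ℂ) (z : ℂ) : ℂ :=
  (1 / (Real.pi : ℂ)) * ∫ ζ in Ω, (z - ζ)⁻¹

/-- The unbounded component of the complement of the closure of `Ω`, as the set of the points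
whose connected component in this complement is unbounded. -/
def unboundedComponent (Ω : Set ℂ) : Set ℂ :=
  {z : ℂ | z ∈ (closure Ω)ᶜ ∧ ¬ Bornology.IsBounded (connectedComponentIn (closure Ω)ᶜ z)}

/-- The exterior Cauchy transform of `Ω` is algebraic: some nonzero polynomial `Q(z, u)` with
complex coefficients satisfies `Q(z, C_Ω(z)) = 0` on the unbounded component. -/
def HasAlgebraicTransform (Ω : Set ℂ) : Prop :=
  ∃ Q : Polynomial (Polynomial ℂ), Q ≠ 0 ∧
    ∀ z ∈ unboundedComponent Ω, Q.evalEval z (cauchyTransform Ω z) = 0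

/-- For every real cubic outside the zero set of some nonzero polynomial in the ten coefficients,
every compact oval `Γ` of the cubic and every domain `Ω` enclosed by `Γ`, the exterior Cauchy
transform of `Ω` is not algebraic. -/
theorem result : ∃ G : MvPolynomial (Fin 10) ℝ, G ≠ 0 ∧
    ∀ a : Fin 10 → ℝ, MvPolynomial.eval a G ≠ 0 →
      ∀ Γ : Set ℂ, IsCompactOval a Γ → ∀ Ω : Set ℂ, IsEnclosedBy Ω Γ →
        ¬ HasAlgebraicTransform Ω := by
  obtain ⟨G, hG, h⟩ := Pool.Agent.P8H32.CT.main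
  refine ⟨G, hG, ?_⟩
  rintro a ha Γ ⟨hΓ, ζ0, -, hΓ0⟩ Ω ⟨hbd, ζ1, hζ1, rfl⟩ ⟨Q, hQ, hQ0⟩
  refine h a ha Γ hΓ ?_ ζ1 hζ1 hbd ⟨Q, hQ, fun z hz hz2 => hQ0 z ⟨hz, hz2⟩⟩
  rw [hΓ0]
  exact connectedComponentIn_subset _ _

end Pool.Agent.Results.MP_076080_ag.GenericCubicOval
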